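import Mathlib
import Pool.Agent.H590.NL.Stm

/-!
# MP_85210c_gt, task BL: the Brascamp-Lieb inequality for the marginal

`theorem BL (h1 : S_PI) (h2 : S_JF) (h3 : S_ZD) : S_BL`: second order expansion of the
Prekopa-Leindler inequality.
-/

set_option autoImplicit false

noncomputable section

open MeasureTheory Filter Topology Set
open scoped BigOperators ENNReal

namespace H795NLBL

open H590NL

/-- second order symmetric difference quotient -/
theorem BL_sym {Z Z1 : ℝ → ℝ} {s z2 : ℝ} (hZ : ∀ s, HasDerivAt Z (Z1 s) s)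
    (hZ1 : HasDerivAt Z1 z2 s) :
    Tendsto (fun t : ℝ => (Z (s + t) + Z (s - t) - 2 * Z s) / t ^ 2) (𝓝[>] 0) (𝓝 z2) := by
  have h1 : ∀ t : ℝ, HasDerivAt (fun t : ℝ => Z (s + t) + Z (s - t) - 2 * Z s)
      (Z1 (s + t) - Z1 (s - t)) t := by
    intro t
    have ha : HasDerivAt (fun t : ℝ => Z (s + t)) (Z1 (s + t)) t :=
      (hZ (s + t)).comp_const_add s t
    have hb : HasDerivAt (fun t : ℝ => Z (s - t)) (-(Z1 (s - t))) t :=
      (hZ (s - t)).comp_const_sub s t
    have hc := (ha.add hb).sub_const (2 * Z s)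
    rw [← sub_eq_add_neg] at hc
    exact hc
  have h2 : ∀ t : ℝ, HasDerivAt (fun t : ℝ => t ^ 2) (2 * t) t := by
    intro t
    simpa using hasDerivAt_pow 2 t
  have h3 : Tendsto (fun t : ℝ => (Z1 (s + t) - Z1 (s - t)) / (2 * t)) (𝓝[>] 0) (𝓝 z2) := by
    have hd : HasDerivAt (fun t : ℝ => Z1 (s + t) - Z1 (s - t)) (z2 - -z2) 0 := by
      have ha : HasDerivAt (fun t : ℝ => Z1 (s + t)) z2 0 := by
        have h : HasDerivAt Z1 z2 (s + 0) := by rw [add_zero]; exact hZ1
        exact h.comp_const_add s 0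
      have hb : HasDerivAt (fun t : ℝ => Z1 (s - t)) (-z2) 0 := by
        have h : HasDerivAt Z1 z2 (s - 0) := by rw [sub_zero]; exact hZ1
        exact h.comp_const_sub s 0
      exact ha.sub hb
    have hs := hd.tendsto_slope_zero_right
    have hs2 := hs.const_mul (1 / 2 : ℝ)
    have e : (1 / 2 : ℝ) * (z2 - -z2) = z2 := by ring
    rw [e] at hs2
    refine hs2.congr' ?_
    filter_upwards [self_mem_nhdsWithin] with t ht
    have ht' : t ≠ 0 := ne_of_gt ht
    simp only [zero_add, add_zero, sub_zero, sub_self, smul_eq_mul]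
    field_simp
  have hc : Continuous Z := continuous_iff_continuousAt.2 fun x => (hZ x).continuousAt
  refine HasDerivAt.lhopital_zero_nhdsGT (Eventually.of_forall h1) (Eventually.of_forall h2) ?_
    ?_ ?_ h3
  · filter_upwards [self_mem_nhdsWithin] with t ht
    exact mul_ne_zero two_ne_zero (ne_of_gt ht)
  · have : Tendsto (fun t : ℝ => Z (s + t) + Z (s - t) - 2 * Z s) (𝓝 0)
        (𝓝 (Z (s + 0) + Z (s - 0) - 2 * Z s)) := by
      apply Continuous.tendsto
      fun_prop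
    have e : Z (s + 0) + Z (s - 0) - 2 * Z s = 0 := by
      rw [add_zero, sub_zero]; ring
    rw [e] at this
    exact this.mono_left nhdsWithin_le_nhds
  · have : Tendsto (fun t : ℝ => t ^ 2) (𝓝 0) (𝓝 ((0 : ℝ) ^ 2)) := by
      apply Continuous.tendsto
      fun_prop
    have e : ((0 : ℝ) ^ 2) = 0 := by norm_num
    rw [e] at this
    exact this.mono_left nhdsWithin_le_nhds

/-- first order symmetric difference quotient -/
theorem BL_fst {Z Z1 : ℝ → ℝ} {s : ℝ} (hZ : ∀ s, HasDerivAt Z (Z1 s) s) :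
    Tendsto (fun t : ℝ => (Z (s + t) - Z (s - t)) / t) (𝓝[>] 0) (𝓝 (2 * Z1 s)) := by
  have hd : HasDerivAt (fun t : ℝ => Z (s + t) - Z (s - t)) (Z1 s - -(Z1 s)) 0 := by
    have ha : HasDerivAt (fun t : ℝ => Z (s + t)) (Z1 s) 0 := by
      have h : HasDerivAt Z (Z1 s) (s + 0) := by rw [add_zero]; exact hZ s
      exact h.comp_const_add s 0
    have hb : HasDerivAt (fun t : ℝ => Z (s - t)) (-(Z1 s)) 0 := by
      have h : HasDerivAt Z (Z1 s) (s - 0) := by rw [sub_zero]; exact hZ s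
      exact h.comp_const_sub s 0
    exact ha.sub hb
  have hs := hd.tendsto_slope_zero_right
  have e : (Z1 s - -(Z1 s)) = 2 * Z1 s := by ring
  rw [e] at hs
  refine hs.congr' ?_
  filter_upwards [self_mem_nhdsWithin] with t ht
  have ht' : t ≠ 0 := ne_of_gt ht
  simp only [zero_add, add_zero, sub_zero, sub_self, smul_eq_mul]
  field_simp

/-- expansion of `Z(s+t) Z(s-t)` -/
theorem BL_prod {Z Z1 : ℝ → ℝ} {s z2 : ℝ} (hZ : ∀ s, HasDerivAt Z (Z1 s) s)
    (hZ1 : HasDerivAt Z1 z2 s) :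
    Tendsto (fun t : ℝ => (Z (s + t) * Z (s - t) - Z s ^ 2) / t ^ 2) (𝓝[>] 0)
      (𝓝 (z2 * Z s - Z1 s ^ 2)) := by
  have hc : Continuous Z := continuous_iff_continuousAt.2 fun x => (hZ x).continuousAt
  have ha := BL_sym hZ hZ1
  have hb := BL_fst (s := s) hZ
  have hS : Tendsto (fun t : ℝ => Z (s + t) + Z (s - t) + 2 * Z s) (𝓝[>] 0) (𝓝 (4 * Z s)) := by
    have : Tendsto (fun t : ℝ => Z (s + t) + Z (s - t) + 2 * Z s) (𝓝 0)
        (𝓝 (Z (s + 0) + Z (s - 0) + 2 * Z s)) := by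
      apply Continuous.tendsto
      fun_prop
    have e : Z (s + 0) + Z (s - 0) + 2 * Z s = 4 * Z s := by
      rw [add_zero, sub_zero]; ring
    rw [e] at this
    exact this.mono_left nhdsWithin_le_nhds
  have h1 := ((ha.mul hS).const_mul (1 / 4 : ℝ)).sub ((hb.mul hb).const_mul (1 / 4 : ℝ))
  have e : (1 / 4 : ℝ) * (z2 * (4 * Z s)) - (1 / 4 : ℝ) * (2 * Z1 s * (2 * Z1 s)) =
      z2 * Z s - Z1 s ^ 2 := by ring
  rw [e] at h1
  refine h1.congr' ?_
  filter_upwards [self_mem_nhdsWithin] with t ht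
  have ht' : t ≠ 0 := ne_of_gt ht
  field_simp
  ring

/-- the real variable part -/
theorem BL_real {Z Z1 : ℝ → ℝ} {s z2 p K M C' : ℝ} (hZ : ∀ s, HasDerivAt Z (Z1 s) s)
    (hZ1 : HasDerivAt Z1 z2 s)
    (hb : ∀ t : ℝ, 0 < t → t ≤ 1 → Z (s + t) * Z (s - t) ≤
      (Real.exp (C' * t ^ 3) * (Z s - (p - 1) * t ^ 2 * K + t ^ 4 * M)) ^ 2) :
    z2 * Z s - Z1 s ^ 2 ≤ -(2 * (p - 1) * Z s * K) := by
  have h1 := BL_prod hZ hZ1
  set g : ℝ → ℝ := fun t => Real.exp (2 * C' * t ^ 3) *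
    ((-((p - 1) * K) + t ^ 2 * M) * (2 * Z s - (p - 1) * t ^ 2 * K + t ^ 4 * M)) +
      Z s ^ 2 * (2 * C' * t * Real.exp (2 * C' * t ^ 3)) with hg
  have hgc : Continuous g := by
    rw [hg]; fun_prop
  have h2 : Tendsto g (𝓝[>] 0) (𝓝 (-(2 * (p - 1) * Z s * K))) := by
    have h := hgc.tendsto 0
    have e : g 0 = -(2 * (p - 1) * Z s * K) := by
      simp only [hg]
      norm_num
      ring
    rw [e] at h
    exact h.mono_left nhdsWithin_le_nhds
  refine le_of_tendsto_of_tendsto h1 h2 ?_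
  have hI : Ioc (0 : ℝ) 1 ∈ 𝓝[>] (0 : ℝ) := Ioc_mem_nhdsGT one_pos
  filter_upwards [hI] with t ht
  have ht0 : 0 < t := ht.1
  have ht2 : 0 < t ^ 2 := by positivity
  rw [div_le_iff₀ ht2]
  have h3 := hb t ht.1 ht.2
  have h4 : (Real.exp (C' * t ^ 3)) ^ 2 = Real.exp (2 * C' * t ^ 3) := by
    rw [← Real.exp_nat_mul]
    congr 1
    push_cast
    ring
  have h5 : Real.exp (2 * C' * t ^ 3) ≤ 1 + 2 * C' * t ^ 3 * Real.exp (2 * C' * t ^ 3) := by
    have h6 := Real.add_one_le_exp (-(2 * C' * t ^ 3))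
    have h7 : 0 < Real.exp (2 * C' * t ^ 3) := Real.exp_pos _
    have h8 : Real.exp (2 * C' * t ^ 3) * Real.exp (-(2 * C' * t ^ 3)) = 1 := by
      rw [← Real.exp_add]; simp
    nlinarith [mul_le_mul_of_nonneg_left h6 h7.le]
  rw [mul_pow, h4] at h3
  have h9 : Z s ^ 2 * Real.exp (2 * C' * t ^ 3) ≤
      Z s ^ 2 * (1 + 2 * C' * t ^ 3 * Real.exp (2 * C' * t ^ 3)) :=
    mul_le_mul_of_nonneg_left h5 (sq_nonneg _)
  have h10 : g t * t ^ 2 = Real.exp (2 * C' * t ^ 3) *
      ((Z s - (p - 1) * t ^ 2 * K + t ^ 4 * M) ^ 2 - Z s ^ 2) +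
      Z s ^ 2 * (2 * C' * t ^ 3 * Real.exp (2 * C' * t ^ 3)) := by
    simp only [hg]
    ring
  rw [h10]
  nlinarith [h3, h9]

/-- `exp (-a) ≤ 1 - a + a²/2` for `a ≥ 0` -/
theorem exp_neg_le {a : ℝ} (ha : 0 ≤ a) : Real.exp (-a) ≤ 1 - a + a ^ 2 / 2 := by
  have hmono : MonotoneOn (fun a : ℝ => 1 - a + a ^ 2 / 2 - Real.exp (-a)) (Ici 0) := by
    apply monotoneOn_of_deriv_nonneg (convex_Ici 0)
    · fun_prop
    · fun_prop
    · intro x hx
      have h : HasDerivAt (fun a : ℝ => 1 - a + a ^ 2 / 2 - Real.exp (-a))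
          ((-1 : ℝ) + x + Real.exp (-x)) x := by
        have h1 : HasDerivAt (fun a : ℝ => 1 - a) (-1) x := by
          simpa using (hasDerivAt_id x).const_sub 1
        have h2 : HasDerivAt (fun a : ℝ => a ^ 2 / 2) x x := by
          refine ((hasDerivAt_pow 2 x).div_const 2).congr_deriv ?_
          push_cast
          ring
        have h3 : HasDerivAt (fun a : ℝ => Real.exp (-a)) (-(Real.exp (-x))) x := by
          refine ((hasDerivAt_neg x).exp).congr_deriv ?_
          ring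
        refine ((h1.add h2).sub h3).congr_deriv ?_
        ring
      rw [h.deriv]
      have := Real.add_one_le_exp (-x)
      linarith
  have h := hmono (mem_Ici.2 le_rfl) (mem_Ici.2 ha) ha
  simp only [neg_zero, Real.exp_zero] at h
  norm_num at h
  linarith

/-- Task BL. -/
theorem BL (h1 : S_PI) (h2 : S_JF) (h3 : S_ZD) : S_BL := by
  intro m κ _ p b C ψ ω ψ2 ν hp1 hp2 hK v hv s z2 hz2
  obtain ⟨C', _, hPI⟩ := h1 m κ p b C ψ ω ψ2 ν hp1 hp2 hK v hv
  obtain ⟨hJ, hJm⟩ := h2 m κ v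
  obtain ⟨hint, -, hZd, -, -⟩ := h3 m κ p b C ψ ω ψ2 ν hp1 hp2 hK v hv
  have hb := hK.hb
  have hωc := hK.cω
  have hω0 : ∀ u, 0 ≤ ω u := fun u => hb.le.trans (hK.bω u).1
  have huc : ∀ j, Continuous fun x : V m => uu v s x j := by
    intro j
    unfold uu ip
    refine continuous_finsetSum _ fun i _ => ?_
    refine Continuous.mul continuous_const ?_
    refine Fin.cases ?_ (fun i => ?_) i
    · simp only [Fin.cons_zero]; exact continuous_const
    · simp only [Fin.cons_succ]; exact continuous_apply i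
  -- the function J along the slice
  set J : V m → ℝ := fun x => JJ v (fun j => ω (uu v s x j)) with hJdef
  have hJmeas : Measurable J := by
    refine hJm.comp ?_
    refine measurable_pi_lambda _ fun j => ?_
    exact (hωc.comp (huc j)).measurable
  have hJ0 : ∀ x, 0 ≤ J x := fun x => (hJ _ fun j => hω0 _).1
  set J1 : ℝ := ∑ j, C * v j 0 ^ 2 with hJ1
  have hJ1' : ∀ x, J x ≤ J1 := by
    intro x
    refine ((hJ _ fun j => hω0 _).2.1).trans ?_
    refine Finset.sum_le_sum fun j _ => ?_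
    exact mul_le_mul_of_nonneg_right (hK.bω _).2 (sq_nonneg _)
  have hI0 := hint s
  have hI1 : Integrable (fun x : V m => Real.exp (-(GG ψ v s x)) * J x) := by
    refine hI0.mul_bdd (c := J1) hJmeas.aestronglyMeasurable ?_
    refine Eventually.of_forall fun x => ?_
    rw [Real.norm_eq_abs, abs_of_nonneg (hJ0 x)]
    exact hJ1' x
  have hI2 : Integrable (fun x : V m => Real.exp (-(GG ψ v s x)) * J x ^ 2) := by
    refine hI0.mul_bdd (c := J1 ^ 2) (hJmeas.pow_const 2).aestronglyMeasurable ?_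
    refine Eventually.of_forall fun x => ?_
    rw [Real.norm_eq_abs, abs_of_nonneg (by positivity)]
    exact pow_le_pow_left₀ (hJ0 x) (hJ1' x) 2
  set M : ℝ := (p - 1) ^ 2 / 2 * ∫ x : V m, Real.exp (-(GG ψ v s x)) * J x ^ 2 with hM
  refine BL_real (K := KJ ψ ω v s) (M := M) (C' := C') hZd hz2 ?_
  intro t ht0 _
  refine (hPI s t ht0.le).trans ?_
  refine pow_le_pow_left₀ (integral_nonneg fun x => (Real.exp_pos _).le) ?_ 2
  have hbound : ∫ x : V m, Real.exp (-(GG ψ v s x + (p - 1) * t ^ 2 *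
      JJ v (fun j => ω (uu v s x j)) - C' * t ^ 3)) ≤
      ∫ x : V m, Real.exp (C' * t ^ 3) * (Real.exp (-(GG ψ v s x)) -
        (p - 1) * t ^ 2 * (Real.exp (-(GG ψ v s x)) * J x) +
        (p - 1) ^ 2 / 2 * t ^ 4 * (Real.exp (-(GG ψ v s x)) * J x ^ 2)) := by
    refine integral_mono_of_nonneg (Eventually.of_forall fun x => (Real.exp_pos _).le) ?_ ?_
    · exact (((hI0.sub (hI1.const_mul _)).add (hI2.const_mul _))).const_mul _
    · refine Eventually.of_forall fun x => ?_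
      have ha : 0 ≤ (p - 1) * t ^ 2 * J x :=
        mul_nonneg (mul_nonneg (by linarith) (by positivity)) (hJ0 x)
      have h := exp_neg_le ha
      have e : Real.exp (-(GG ψ v s x + (p - 1) * t ^ 2 *
          JJ v (fun j => ω (uu v s x j)) - C' * t ^ 3)) =
          Real.exp (C' * t ^ 3) * (Real.exp (-(GG ψ v s x)) *
            Real.exp (-((p - 1) * t ^ 2 * J x))) := by
        rw [← Real.exp_add, ← Real.exp_add]
        congr 1
        simp only [hJdef]
        ring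
      simp only
      rw [e]
      refine mul_le_mul_of_nonneg_left ?_ (Real.exp_pos _).le
      have h' := mul_le_mul_of_nonneg_left h (Real.exp_pos (-(GG ψ v s x))).le
      refine h'.trans (le_of_eq ?_)
      ring
  refine hbound.trans (le_of_eq ?_)
  rw [integral_const_mul]
  congr 1
  have e2 : ∫ x : V m, (Real.exp (-(GG ψ v s x)) -
        (p - 1) * t ^ 2 * (Real.exp (-(GG ψ v s x)) * J x) +
        (p - 1) ^ 2 / 2 * t ^ 4 * (Real.exp (-(GG ψ v s x)) * J x ^ 2)) =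
      (∫ x : V m, (Real.exp (-(GG ψ v s x)) -
        (p - 1) * t ^ 2 * (Real.exp (-(GG ψ v s x)) * J x))) +
        ∫ x : V m, (p - 1) ^ 2 / 2 * t ^ 4 * (Real.exp (-(GG ψ v s x)) * J x ^ 2) :=
    integral_add (hI0.sub (hI1.const_mul _)) (hI2.const_mul _)
  have e3 : ∫ x : V m, (Real.exp (-(GG ψ v s x)) -
        (p - 1) * t ^ 2 * (Real.exp (-(GG ψ v s x)) * J x)) =
      (∫ x : V m, Real.exp (-(GG ψ v s x))) -
        ∫ x : V m, (p - 1) * t ^ 2 * (Real.exp (-(GG ψ v s x)) * J x) :=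
    integral_sub hI0 (hI1.const_mul _)
  rw [e2, e3, integral_const_mul, integral_const_mul, hM]
  simp only [ZZ, KJ, hJdef]
  ring

end H795NLBL
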